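import Mathlib

/-!
# Proportional splitting of finitely many non-atomic measures (a form of Lyapunov's theorem)
-/

namespace Pool.Agent.Lib.Lyapunov

open MeasureTheory Set

variable {X : Type*} [MeasurableSpace X]

/-- Every measurable set can be halved simultaneously for all measures in `S`. -/
def Halv (S : Set (Measure X)) : Prop :=
  ∀ E, MeasurableSet E → ∃ F, F ⊆ E ∧ MeasurableSet F ∧ ∀ μ ∈ S, μ.real F = μ.real E / 2

/-- Dyadic approximations of a proportional chain. -/
noncomputable def ch (H : Set X → Set X) : ℕ → Set X → ℝ → Set X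
  | 0, _, _ => ∅
  | n + 1, E, t => if 1 / 2 ≤ t then H E ∪ ch H n (E \ H E) (2 * t - 1) else ch H n (H E) (2 * t)

section chain

variable {H : Set X → Set X} (hH : ∀ E, MeasurableSet E → H E ⊆ E ∧ MeasurableSet (H E))
include hH

theorem ch_sub (n : ℕ) : ∀ (E : Set X) (t : ℝ), MeasurableSet E →
    ch H n E t ⊆ E ∧ MeasurableSet (ch H n E t) := by
  induction n with
  | zero => intro E t _; exact ⟨empty_subset _, MeasurableSet.empty⟩
  | succ n ih =>
    intro E t hE
    obtain ⟨h1, h2⟩ := hH E hE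
    simp only [ch]
    split_ifs
    · obtain ⟨h3, h4⟩ := ih (E \ H E) (2 * t - 1) (hE.diff h2)
      exact ⟨union_subset h1 (h3.trans sdiff_subset), h2.union h4⟩
    · obtain ⟨h3, h4⟩ := ih (H E) (2 * t) h2
      exact ⟨h3.trans h1, h4⟩

theorem ch_mono_t (n : ℕ) : ∀ (E : Set X) (t t' : ℝ), MeasurableSet E → t ≤ t' →
    ch H n E t ⊆ ch H n E t' := by
  induction n with
  | zero => intro E t t' _ _; exact subset_rfl
  | succ n ih =>
    intro E t t' hE h
    obtain ⟨h1, h2⟩ := hH E hE
    simp only [ch]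
    split_ifs with h3 h4 h4
    · exact union_subset_union_right _ (ih _ _ _ (hE.diff h2) (by linarith))
    · exact absurd (h3.trans h) h4
    · exact ((ch_sub hH n _ _ h2).1).trans subset_union_left
    · exact ih _ _ _ h2 (by linarith)

omit hH [MeasurableSpace X] in
theorem ch_mono_n (n : ℕ) : ∀ (E : Set X) (t : ℝ), ch H n E t ⊆ ch H (n + 1) E t := by
  induction n with
  | zero => intro E t; exact empty_subset _
  | succ n ih =>
    intro E t
    rw [ch, ch]
    split_ifs
    · exact union_subset_union_right _ (ih _ _)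
    · exact ih _ _

theorem ch_meas (μ : Measure X) [IsFiniteMeasure μ]
    (hμ : ∀ E, MeasurableSet E → μ.real (H E) = μ.real E / 2) (n : ℕ) :
    ∀ (E : Set X) (t : ℝ), MeasurableSet E → 0 ≤ t → t ≤ 1 →
      (t - (1 / 2) ^ n) * μ.real E ≤ μ.real (ch H n E t) ∧ μ.real (ch H n E t) ≤ t * μ.real E := by
  induction n with
  | zero =>
    intro E t _ h0 h1
    have : 0 ≤ μ.real E := measureReal_nonneg
    simp only [ch, measureReal_empty, pow_zero]
    constructor <;> nlinarith
  | succ n ih =>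
    intro E t hE h0 h1
    obtain ⟨h2, h3⟩ := hH E hE
    have h4 := hμ E hE
    simp only [ch]
    split_ifs with h
    · obtain ⟨h5, h6⟩ := ih (E \ H E) (2 * t - 1) (hE.diff h3) (by linarith) (by linarith)
      obtain ⟨h7, h8⟩ := ch_sub hH n (E \ H E) (2 * t - 1) (hE.diff h3)
      rw [measureReal_union (disjoint_sdiff_right.mono_right h7) h8]
      rw [measureReal_sdiff h2 h3] at h5 h6
      rw [h4] at h5 h6 ⊢
      rw [pow_succ]
      constructor <;> linarith
    · obtain ⟨h5, h6⟩ := ih (H E) (2 * t) h3 (by linarith) (by linarith)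
      rw [h4] at h5 h6
      rw [pow_succ]
      constructor <;> linarith

end chain

theorem Halv.chain {S : Set (Measure X)} (hS : ∀ μ ∈ S, IsFiniteMeasure μ) (h : Halv S)
    (E : Set X) (hE : MeasurableSet E) : ∃ G : ℝ → Set X, (∀ t, G t ⊆ E) ∧
      (∀ t, MeasurableSet (G t)) ∧ Monotone G ∧
      ∀ μ ∈ S, ∀ t, 0 ≤ t → t ≤ 1 → μ.real (G t) = t * μ.real E := by
  choose! H h1 h2 h3 using h
  have hH : ∀ E, MeasurableSet E → H E ⊆ E ∧ MeasurableSet (H E) := fun E hE => ⟨h1 E hE, h2 E hE⟩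
  refine ⟨fun t => ⋃ n, ch H n E t, fun t => iUnion_subset fun n => (ch_sub hH n E t hE).1,
    fun t => MeasurableSet.iUnion fun n => (ch_sub hH n E t hE).2,
    fun t t' htt => iUnion_mono fun n => ch_mono_t hH n E t t' hE htt, fun μ hμ t h0 h1' => ?_⟩
  have := hS μ hμ
  have key := fun n => ch_meas hH μ (fun E hE => h3 E hE μ hμ) n E t hE h0 h1'
  apply le_antisymm
  · have hm : Monotone fun n => ch H n E t := monotone_nat_of_le_succ fun n => ch_mono_n n E t
    have h4 : μ (⋃ n, ch H n E t) ≤ ENNReal.ofReal (t * μ.real E) := by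
      rw [hm.measure_iUnion]
      refine iSup_le fun n => ?_
      rw [← ofReal_measureReal]
      exact ENNReal.ofReal_le_ofReal (key n).2
    exact ENNReal.toReal_le_of_le_ofReal (mul_nonneg h0 measureReal_nonneg) h4
  · have h4 : Filter.Tendsto (fun n : ℕ => (t - (1 / 2) ^ n) * μ.real E) Filter.atTop
        (nhds ((t - 0) * μ.real E)) :=
      (tendsto_const_nhds.sub (tendsto_pow_atTop_nhds_zero_of_lt_one (by norm_num)
        (by norm_num))).mul_const _
    rw [sub_zero] at h4
    refine le_of_tendsto' h4 fun n => (key n).1.trans ?_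
    exact measureReal_mono (subset_iUnion (fun n => ch H n E t) n)

theorem continuousOn_chain {ν ρ : Measure X} [IsFiniteMeasure ν] (hρ : ρ ≤ ν) {G : ℝ → Set X}
    (hG : ∀ t, MeasurableSet (G t)) (hm : Monotone G) {c : ℝ}
    (hν : ∀ t, 0 ≤ t → t ≤ 1 → ν.real (G t) = t * c) :
    ContinuousOn (fun t => ρ.real (G t)) (Icc 0 1) := by
  have : IsFiniteMeasure ρ := isFiniteMeasure_of_le ν hρ
  have key : ∀ s ∈ Icc (0 : ℝ) 1, ∀ t ∈ Icc (0 : ℝ) 1, s ≤ t →
      |ρ.real (G t) - ρ.real (G s)| ≤ |c| * |t - s| := by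
    intro s hs t ht hst
    rw [← measureReal_sdiff (hm hst) (hG s), abs_of_nonneg measureReal_nonneg]
    have h1 : ρ.real (G t \ G s) ≤ ν.real (G t \ G s) :=
      ENNReal.toReal_mono (measure_ne_top _ _) (hρ _)
    rw [measureReal_sdiff (μ := ν) (hm hst) (hG s), hν s hs.1 hs.2, hν t ht.1 ht.2] at h1
    refine h1.trans ?_
    rw [← abs_mul]
    exact le_of_eq_of_le (by ring) (le_abs_self _)
  refine LipschitzOnWith.continuousOn (K := ⟨|c|, abs_nonneg c⟩)
    (LipschitzOnWith.of_dist_le_mul fun s hs t ht => ?_)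
  rw [Real.dist_eq, Real.dist_eq]
  rcases le_total s t with h | h
  · rw [abs_sub_comm, abs_sub_comm s t]; exact key s hs t ht h
  · exact key t ht s hs h

theorem Halv.insert {S : Set (Measure X)} (hS : ∀ μ ∈ S, IsFiniteMeasure μ) (h : Halv S)
    {ν ρ : Measure X} (hν : ν ∈ S) (hρ : ρ ≤ ν) : Halv (insert ρ S) := by
  intro E hE
  have := hS ν hν
  have : IsFiniteMeasure ρ := isFiniteMeasure_of_le ν hρ
  obtain ⟨F, hF1, hF2, hF3⟩ := h E hE
  obtain ⟨G, g1, g2, g3, g4⟩ := h.chain hS F hF2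
  obtain ⟨G', g1', g2', g3', g4'⟩ := h.chain hS (E \ F) (hE.diff hF2)
  have hval : ∀ (μ : Measure X) [IsFiniteMeasure μ] (t : ℝ),
      μ.real (G' t ∪ (F \ G t)) = μ.real (G' t) + (μ.real F - μ.real (G t)) := by
    intro μ _ t
    rw [measureReal_union _ (hF2.diff (g2 t)), measureReal_sdiff (g1 t) (g2 t)]
    exact (disjoint_sdiff_left.mono_left (g1' t)).mono_right sdiff_subset
  have hc : ContinuousOn (fun t => ρ.real (G' t) + (ρ.real F - ρ.real (G t))) (Icc 0 1) :=
    (continuousOn_chain hρ g2' g3' (g4' ν hν)).add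
      (continuousOn_const.sub (continuousOn_chain hρ g2 g3 (g4 ν hν)))
  have hle : ∀ A : Set X, ρ.real A ≤ ν.real A := fun A =>
    ENNReal.toReal_mono (measure_ne_top _ _) (hρ _)
  have e0 : ρ.real (G 0) = 0 :=
    le_antisymm ((hle _).trans (by rw [g4 ν hν 0 le_rfl zero_le_one]; simp)) measureReal_nonneg
  have e0' : ρ.real (G' 0) = 0 :=
    le_antisymm ((hle _).trans (by rw [g4' ν hν 0 le_rfl zero_le_one]; simp)) measureReal_nonneg
  have e1 : ρ.real F - ρ.real (G 1) = 0 := by
    rw [← measureReal_sdiff (g1 1) (g2 1)]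
    refine le_antisymm ((hle _).trans ?_) measureReal_nonneg
    rw [measureReal_sdiff (g1 1) (g2 1), g4 ν hν 1 zero_le_one le_rfl]; simp
  have e1' : ρ.real (E \ F) - ρ.real (G' 1) = 0 := by
    rw [← measureReal_sdiff (g1' 1) (g2' 1)]
    refine le_antisymm ((hle _).trans ?_) measureReal_nonneg
    rw [measureReal_sdiff (g1' 1) (g2' 1), g4' ν hν 1 zero_le_one le_rfl]; simp
  rw [measureReal_sdiff hF1 hF2] at e1'
  obtain ⟨t, ht, ht'⟩ : ∃ t ∈ Icc (0 : ℝ) 1,
      ρ.real (G' t) + (ρ.real F - ρ.real (G t)) = ρ.real E / 2 := by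
    rcases le_total (ρ.real F) (ρ.real E / 2) with h1 | h1
    · exact intermediate_value_Icc zero_le_one hc ⟨by linarith, by linarith⟩
    · exact intermediate_value_Icc' zero_le_one hc ⟨by linarith, by linarith⟩
  refine ⟨G' t ∪ (F \ G t), union_subset ((g1' t).trans sdiff_subset) (sdiff_subset.trans hF1),
    (g2' t).union (hF2.diff (g2 t)), fun μ hμ => ?_⟩
  rcases hμ with rfl | hμ
  · rw [hval, ht']
  · have := hS μ hμ
    rw [hval, g4 μ hμ t ht.1 ht.2, g4' μ hμ t ht.1 ht.2, measureReal_sdiff hF1 hF2, hF3 μ hμ]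
    ring

theorem halv_family {ι : Type*} (ν : Measure X) [IsFiniteMeasure ν] (h : Halv {ν})
    (μ : ι → Measure X) (hμ : ∀ i, μ i ≤ ν) (s : Finset ι) :
    Halv (insert ν (μ '' s)) := by
  classical
  induction s using Finset.induction_on with
  | empty => simpa using h
  | insert a s _ ih =>
    rw [Finset.coe_insert, image_insert_eq, insert_comm]
    refine ih.insert ?_ (mem_insert _ _) (hμ a)
    rintro _ (rfl | ⟨i, -, rfl⟩)
    · infer_instance
    · exact isFiniteMeasure_of_le ν (hμ i)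

theorem halv_Icc (ν : Measure (Icc (0 : ℝ) 1)) [IsFiniteMeasure ν] [NullSingletonClass ν] :
    Halv {ν} := by
  intro E hE
  let μ : Measure ℝ := (ν.restrict E).map Subtype.val
  have : NullSingletonClass μ := ⟨fun y => by
    rw [Measure.map_apply measurable_subtype_coe (measurableSet_singleton y)]
    exact (subsingleton_singleton.preimage Subtype.val_injective).measure_zero _⟩
  have hc : Continuous fun b => ∫ _x in (-1 : ℝ)..b, (1 : ℝ) ∂μ :=
    (integrable_const (1 : ℝ)).continuous_primitive (-1)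
  have hval : ∀ b : ℝ, -1 ≤ b → ∫ _x in (-1 : ℝ)..b, (1 : ℝ) ∂μ =
      ν.real (Subtype.val ⁻¹' Ioc (-1) b ∩ E) := by
    intro b hb
    rw [intervalIntegral.integral_of_le hb]
    simp only [integral_const, MeasurableSet.univ, measureReal_restrict_apply, univ_inter,
      smul_eq_mul, mul_one]
    rw [measureReal_def, measureReal_def, Measure.map_apply measurable_subtype_coe measurableSet_Ioc,
      Measure.restrict_apply (measurable_subtype_coe measurableSet_Ioc)]
  have h1 : (Subtype.val ⁻¹' Ioc (-1) 1 ∩ E : Set (Icc (0 : ℝ) 1)) = E := by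
    refine inter_eq_right.2 fun x _ => ⟨?_, x.2.2⟩
    have := x.2.1
    linarith
  have h2 : 0 ≤ ν.real E := measureReal_nonneg
  obtain ⟨t, ht, ht'⟩ := intermediate_value_Icc (show (-1 : ℝ) ≤ 1 by norm_num) hc.continuousOn
    (show ν.real E / 2 ∈ Icc _ _ from
      ⟨by simp only [intervalIntegral.integral_same]; linarith,
        by rw [hval 1 (by norm_num), h1]; linarith⟩)
  refine ⟨Subtype.val ⁻¹' Ioc (-1) t ∩ E, inter_subset_right,
    (measurable_subtype_coe measurableSet_Ioc).inter hE, fun μ' hμ' => ?_⟩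
  rw [mem_singleton_iff.1 hμ', ← hval t ht.1]
  exact ht'

theorem Halv.pieces {S : Set (Measure X)} (hS : ∀ μ ∈ S, IsFiniteMeasure μ) (h : Halv S)
    {r : ℕ} (hr : 0 < r) (w : Fin r → ℝ) (hw : ∀ c, 0 ≤ w c) (hw1 : ∑ c, w c = 1) :
    ∃ A : Fin r → Set X, (∀ c, MeasurableSet (A c)) ∧ Pairwise (Function.onFun Disjoint A) ∧
      ⋃ c, A c = univ ∧ ∀ μ ∈ S, ∀ c, μ.real (A c) = w c * μ.real univ := by
  classical
  obtain ⟨G, -, g2, g3, g4⟩ := h.chain hS univ MeasurableSet.univ
  let s : ℕ → ℝ := fun i => ∑ c ∈ Finset.univ.filter (fun c : Fin r => c.val < i), w c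
  have hs : Monotone s := fun i j hij => Finset.sum_le_sum_of_subset_of_nonneg
    (fun c hc => by simp at hc ⊢; omega) (fun c _ _ => hw c)
  have hs0 : ∀ i, 0 ≤ s i := fun i => Finset.sum_nonneg fun c _ => hw c
  have hs1 : ∀ i, s i ≤ 1 := fun i => hw1 ▸ Finset.sum_le_sum_of_subset_of_nonneg
    (Finset.filter_subset _ _) (fun c _ _ => hw c)
  have hstep : ∀ c : Fin r, s (c + 1) = s c + w c := by
    intro c
    have : Finset.univ.filter (fun d : Fin r => d.val < c.val + 1) =
        Insert.insert c (Finset.univ.filter (fun d : Fin r => d.val < c.val)) := by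
      ext d
      simp only [Finset.mem_filter, Finset.mem_univ, true_and, Finset.mem_insert, Fin.ext_iff]
      omega
    simp only [s]
    rw [this, Finset.sum_insert (by simp), add_comm]
  let B : Fin r → Set X := fun c => G (s (c + 1)) \ G (s c)
  have hB : ∀ c, MeasurableSet (B c) := fun c => (g2 _).diff (g2 _)
  have hBd : Pairwise (Function.onFun Disjoint B) := by
    have key : ∀ c d : Fin r, c < d → Disjoint (B c) (B d) := by
      intro c d hcd
      refine Set.disjoint_left.2 fun x h1 h2 => h2.2 (g3 (hs ?_) h1.1)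
      exact hcd
    intro c d hcd
    rcases lt_or_gt_of_ne hcd with h | h
    · exact key c d h
    · exact (key d c h).symm
  have hBm : ∀ μ ∈ S, ∀ c, μ.real (B c) = w c * μ.real univ := by
    intro μ hμ c
    have := hS μ hμ
    rw [measureReal_sdiff (g3 (hs (Nat.le_succ _))) (g2 _), g4 μ hμ _ (hs0 _) (hs1 _),
      g4 μ hμ _ (hs0 _) (hs1 _), hstep]
    ring
  have hU : MeasurableSet (⋃ c, B c) := MeasurableSet.iUnion hB
  have hnull : ∀ μ ∈ S, μ.real (⋃ c, B c)ᶜ = 0 := by
    intro μ hμ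
    have := hS μ hμ
    rw [measureReal_compl hU, measureReal_iUnion_fintype hBd hB]
    simp only [hBm μ hμ, ← Finset.sum_mul, hw1, one_mul, sub_self]
  let c0 : Fin r := ⟨0, hr⟩
  refine ⟨fun c => if c = c0 then B c ∪ (⋃ c, B c)ᶜ else B c, fun c => ?_, fun c d hcd => ?_, ?_,
    fun μ hμ c => ?_⟩
  · beta_reduce
    split_ifs
    · exact (hB c).union hU.compl
    · exact hB c
  · have h1 : ∀ c, Disjoint (⋃ c, B c)ᶜ (B c) := fun c =>
      disjoint_compl_left.mono_right (subset_iUnion B c)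
    simp only [Function.onFun]
    split_ifs with h2 h3 h3
    · exact absurd (h2.trans h3.symm) hcd
    · exact disjoint_union_left.2 ⟨hBd hcd, h1 d⟩
    · exact disjoint_union_right.2 ⟨hBd hcd, (h1 c).symm⟩
    · exact hBd hcd
  · refine eq_univ_of_forall fun x => ?_
    by_cases hx : x ∈ ⋃ c, B c
    · obtain ⟨c, hc⟩ := mem_iUnion.1 hx
      refine mem_iUnion.2 ⟨c, ?_⟩
      split_ifs
      · exact Or.inl hc
      · exact hc
    · exact mem_iUnion.2 ⟨c0, by rw [if_pos rfl]; exact Or.inr hx⟩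
  · have := hS μ hμ
    beta_reduce
    split_ifs
    · rw [measureReal_union (disjoint_compl_right.mono_left (subset_iUnion B c)) hU.compl,
        hnull μ hμ, add_zero, hBm μ hμ]
    · exact hBm μ hμ c

/-- Proportional splitting of finitely many finite measures without atoms on the unit interval. -/
theorem exists_pieces {ι : Type*} [Fintype ι] (μ : ι → Measure (Icc (0 : ℝ) 1))
    [∀ i, IsFiniteMeasure (μ i)] [∀ i, NullSingletonClass (μ i)]
    {r : ℕ} (hr : 0 < r) (w : Fin r → ℝ) (hw : ∀ c, 0 ≤ w c) (hw1 : ∑ c, w c = 1) :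
    ∃ A : Fin r → Set (Icc (0 : ℝ) 1), (∀ c, MeasurableSet (A c)) ∧
      Pairwise (Function.onFun Disjoint A) ∧
      ⋃ c, A c = univ ∧ ∀ i c, (μ i).real (A c) = w c * (μ i).real univ := by
  let ν : Measure (Icc (0 : ℝ) 1) := Measure.sum μ
  have : NullSingletonClass ν := ⟨fun x => by simp [ν]⟩
  have h := halv_family ν (halv_Icc ν) μ (fun i => Measure.le_sum μ i) Finset.univ
  obtain ⟨A, h1, h2, h3, h4⟩ := h.pieces (by
    rintro _ (rfl | ⟨i, -, rfl⟩) <;> infer_instance) hr w hw hw1
  exact ⟨A, h1, h2, h3, fun i c => h4 _ (Or.inr ⟨i, by simp, rfl⟩) c⟩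

end Pool.Agent.Lib.Lyapunov
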